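import Mathlib
import Pool.Agent.Q242.AD.Main

set_option autoImplicit false

namespace Pool.Agent.Results.MP_79499b_co.AlmostAllDimensions

open Filter Topology

/-- Some finite group `G` (not assumed abelian) of order `(n ^ m - 1) / (n - 1)` contains a
difference set `D` with the Singer parameters:
`k = (n ^ (m - 1) - 1) / (n - 1)`, `lambda = (n ^ (m - 2) - 1) / (n - 1)`. -/
def HasSingerDifferenceSet (n m : ℕ) : Prop :=
  ∃ (G : Type) (_ : Group G) (_ : Fintype G) (_ : DecidableEq G) (D : Finset G),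
    Fintype.card G * (n - 1) = n ^ m - 1 ∧ D.card * (n - 1) = n ^ (m - 1) - 1 ∧
    ∀ g : G, g ≠ 1 →
      ((D ×ˢ D).filter (fun p : G × G => p.1 * p.2⁻¹ = g)).card * (n - 1) = n ^ (m - 2) - 1

/-- Let `n` be `1` or `2` modulo `4` and not a sum of two squares.

(1) If some finite group contains a difference set with the Singer parameters of `(n, m)` for an odd
`m ≥ 3`, then `n` is `1` modulo `4` and all prime factors of `m` are `1` modulo `4`.

(2) The set of the odd `m ≥ 3` such that some finite group contains such a difference set has natural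
density zero: there is none for almost all odd `m`. -/
theorem result (n : ℕ) (h4 : n % 4 = 1 ∨ n % 4 = 2) (hn : ¬ ∃ x y : ℕ, n = x ^ 2 + y ^ 2) :
    (∀ m : ℕ, Odd m → 3 ≤ m → HasSingerDifferenceSet n m →
      n % 4 = 1 ∧ ∀ l : ℕ, l.Prime → l ∣ m → l % 4 = 1) ∧
    Tendsto (fun X : ℕ =>
      ({m : ℕ | m < X ∧ Odd m ∧ 3 ≤ m ∧ HasSingerDifferenceSet n m}.ncard : ℝ) / (X : ℝ))
      atTop (𝓝 0) := by
  classical
  have h1 : ∀ m : ℕ, Odd m → 3 ≤ m → HasSingerDifferenceSet n m →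
      n % 4 = 1 ∧ ∀ l : ℕ, l.Prime → l ∣ m → l % 4 = 1 := by
    intro m hm hm3 hD
    have h2 : ¬ (n % 4 = 2 ∨ ∃ l : ℕ, l.Prime ∧ l % 4 = 3 ∧ l ∣ m) := fun h =>
      Pool.Agent.Q242.AD.main h4 hn hm hm3 h hD
    push Not at h2
    refine ⟨h4.resolve_right h2.1, fun l hl hlm => ?_⟩
    have h3 : Odd l := hm.of_dvd_nat hlm
    have h5 := h2.2 l hl
    have h6 : l % 4 ≠ 3 := fun h => h5 h hlm
    obtain ⟨j, hj⟩ := h3
    omega
  refine ⟨h1, ?_⟩
  refine squeeze_zero (fun X => by positivity) (fun X => ?_) Pool.Agent.Q242.AD.free_zero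
  refine div_le_div_of_nonneg_right ?_ (Nat.cast_nonneg X)
  rw [Nat.cast_le]
  have h2 : {m : ℕ | m < X ∧ Odd m ∧ 3 ≤ m ∧ HasSingerDifferenceSet n m} ⊆
      ((Finset.range X).filter (fun m => ∀ l : ℕ, l.Prime → l % 4 = 3 → ¬ l ∣ m) : Finset ℕ) := by
    rintro m ⟨hX, hm, hm3, hD⟩
    rw [Finset.mem_coe, Finset.mem_filter, Finset.mem_range]
    refine ⟨hX, fun l hl hl4 hlm => ?_⟩
    have := (h1 m hm hm3 hD).2 l hl hlm
    omega
  refine (Set.ncard_le_ncard h2 (Finset.finite_toSet _)).trans (le_of_eq ?_)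
  rw [Set.ncard_coe_finset]
  unfold Pool.Agent.H771R2.Dens.cnt
  congr

end Pool.Agent.Results.MP_79499b_co.AlmostAllDimensions
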