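import Mathlib
import Pool.Agent.W114.VT.Main

set_option autoImplicit false

/-!
# Difference sets with Singer parameters: one order, pairwise coprime dimensions

For a fixed order `n` with two different prime factors (other than `3`) of odd exponent, there are
infinitely many pairwise coprime odd numbers `d` such that the statement of Q1 holds for `(n, m)` for all
the odd multiples `m` of `d`.

From the starting files: `Pool.Agent.W114.VT.vertical` (the test of Mann and Lander at primes modulo which
`n` is a square and the two primes are not).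
-/

namespace Pool.Agent.Results.MP_79499b_co.CoprimeDimensions

/-- Some finite group `G` (not assumed abelian) of order `(n ^ m - 1) / (n - 1)` contains a
difference set `D` with the Singer parameters:
`k = (n ^ (m - 1) - 1) / (n - 1)`, `lambda = (n ^ (m - 2) - 1) / (n - 1)`. -/
def HasSingerDifferenceSet (n m : ℕ) : Prop :=
  ∃ (G : Type) (_ : Group G) (_ : Fintype G) (_ : DecidableEq G) (D : Finset G),
    Fintype.card G * (n - 1) = n ^ m - 1 ∧ D.card * (n - 1) = n ^ (m - 1) - 1 ∧
    ∀ g : G, g ≠ 1 →
      ((D ×ˢ D).filter (fun p : G × G => p.1 * p.2⁻¹ = g)).card * (n - 1) = n ^ (m - 2) - 1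

/-- Let `n` have two different prime factors `p, p' ≠ 3`, both with an odd exponent. There are infinitely
many pairwise coprime odd numbers `d 0, d 1, d 2, ...`, all at least `3`, such that for every `i` and every
odd `m ≥ 3` divisible by `d i` no finite group contains a difference set with the Singer parameters of
`(n, m)`. -/
theorem result (n p p' : ℕ) (hp : p.Prime) (hp' : p'.Prime) (hne : p ≠ p') (h3 : p ≠ 3) (h3' : p' ≠ 3)
    (h1 : Odd (n.factorization p)) (h2 : Odd (n.factorization p')) :
    ∃ d : ℕ → ℕ, (∀ i, Odd (d i) ∧ 3 ≤ d i) ∧ (∀ i j, i ≠ j → Nat.Coprime (d i) (d j)) ∧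
      ∀ i m : ℕ, Odd m → 3 ≤ m → d i ∣ m → ¬ HasSingerDifferenceSet n m := by
  classical
  have key : ∀ N : ℕ, ∃ d : ℕ, N ≠ 0 → (Odd d ∧ 3 ≤ d ∧ Nat.Coprime d N ∧
      ∀ m : ℕ, Odd m → 3 ≤ m → d ∣ m → ¬ HasSingerDifferenceSet n m) := by
    intro N
    by_cases hN : N = 0
    · exact ⟨0, fun h => absurd hN h⟩
    · obtain ⟨d, hd⟩ := Pool.Agent.W114.VT.vertical hp hp' hne h1 h2 hN (Or.inr ⟨h3, h3'⟩)
      exact ⟨d, fun _ => hd⟩
  choose f hf using key
  -- the products of the first numbers
  let P : ℕ → ℕ := fun i => Nat.rec 1 (fun _ N => N * f N) i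
  have hP0 : P 0 = 1 := rfl
  have hPs : ∀ i, P (i + 1) = P i * f (P i) := fun _ => rfl
  have hP : ∀ i, P i ≠ 0 := by
    intro i
    induction i with
    | zero => rw [hP0]; exact one_ne_zero
    | succ i ih =>
      rw [hPs]
      have h := (hf (P i) ih).2.1
      exact mul_ne_zero ih (by omega)
  have hdvd : ∀ i j, i ≤ j → P i ∣ P j := by
    intro i j hij
    induction j, hij using Nat.le_induction with
    | base => exact dvd_rfl
    | succ j _ ih => exact ih.trans ⟨f (P j), hPs j⟩
  refine ⟨fun i => f (P i), fun i => ⟨(hf (P i) (hP i)).1, (hf (P i) (hP i)).2.1⟩, ?_,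
    fun i => (hf (P i) (hP i)).2.2.2⟩
  have hlt : ∀ i j, i < j → Nat.Coprime (f (P i)) (f (P j)) := by
    intro i j hij
    have h4 : f (P i) ∣ P j := (Dvd.intro_left (P i) (hPs i).symm).trans (hdvd (i + 1) j hij)
    exact (Nat.Coprime.coprime_dvd_right h4 (hf (P j) (hP j)).2.2.1).symm
  intro i j hij
  rcases lt_or_gt_of_ne hij with h | h
  · exact hlt i j h
  · exact (hlt j i h).symm

end Pool.Agent.Results.MP_79499b_co.CoprimeDimensions
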