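import Mathlib
import Pool.Agent.Q242.PO.Main

set_option autoImplicit false

namespace Pool.Agent.Results.MP_79499b_co.PolynomialOrders

open Filter Topology Polynomial

/-- Some finite group `G` (not assumed abelian) of order `(n ^ m - 1) / (n - 1)` contains a
difference set `D` with the Singer parameters:
`k = (n ^ (m - 1) - 1) / (n - 1)`, `lambda = (n ^ (m - 2) - 1) / (n - 1)`. -/
def HasSingerDifferenceSet (n m : ℕ) : Prop :=
  ∃ (G : Type) (_ : Group G) (_ : Fintype G) (_ : DecidableEq G) (D : Finset G),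
    Fintype.card G * (n - 1) = n ^ m - 1 ∧ D.card * (n - 1) = n ^ (m - 1) - 1 ∧
    ∀ g : G, g ≠ 1 →
      ((D ×ˢ D).filter (fun p : G × G => p.1 * p.2⁻¹ = g)).card * (n - 1) = n ^ (m - 2) - 1

/-- Let `f` be a polynomial with integer coefficients which is not a constant times the square of
a polynomial, and let `L` be a natural number. The set of all `k` such that `n = f(k) ≥ 2` and, for
some odd `m ≥ 3` whose smallest prime factor is at most `L`, some finite group contains a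
difference set with the Singer parameters for `(n, m)`, has natural density zero. -/
theorem result (f : ℤ[X]) (hf : ¬ ∃ (c : ℤ) (g : ℤ[X]), f = C c * g ^ 2) (L : ℕ) :
    Tendsto (fun N : ℕ =>
      ({k : ℕ | k < N ∧ ∃ n : ℕ, (n : ℤ) = f.eval (k : ℤ) ∧ 2 ≤ n ∧
        ∃ m : ℕ, Odd m ∧ 3 ≤ m ∧ m.minFac ≤ L ∧ HasSingerDifferenceSet n m}.ncard : ℝ) / (N : ℝ))
      atTop (𝓝 0) := by
  classical
  set S : ℕ → ℕ → Prop := fun l k => ∃ n : ℕ, (n : ℤ) = f.eval (k : ℤ) ∧ 2 ≤ n ∧
    ∃ m : ℕ, Odd m ∧ 3 ≤ m ∧ l ∣ m ∧ Pool.Agent.H771R2.SingerDS.HasSinger n m with hS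
  set P : Finset ℕ := (Finset.range (L + 1)).filter Nat.Prime with hP
  have h0 : Tendsto (fun N : ℕ => ∑ l ∈ P, (Pool.Agent.H771R2.Dens.cnt (S l) N : ℝ) / N)
      atTop (𝓝 0) := by
    have h1 := tendsto_finsetSum P (fun l hl => Pool.Agent.Q242.PO.main f hf
      (Finset.mem_filter.1 hl).2)
    simpa using h1
  refine squeeze_zero (fun N => by positivity) (fun N => ?_) h0
  rw [← Finset.sum_div]
  refine div_le_div_of_nonneg_right ?_ (Nat.cast_nonneg N)
  rw [← Nat.cast_sum, Nat.cast_le]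
  have h2 : {k : ℕ | k < N ∧ ∃ n : ℕ, (n : ℤ) = f.eval (k : ℤ) ∧ 2 ≤ n ∧
        ∃ m : ℕ, Odd m ∧ 3 ≤ m ∧ m.minFac ≤ L ∧ HasSingerDifferenceSet n m} ⊆
      (P.biUnion (fun l => (Finset.range N).filter (S l)) : Finset ℕ) := by
    rintro k ⟨hk, n, hn, hn2, m, hm, hm3, hmL, hD⟩
    rw [Finset.coe_biUnion, Set.mem_iUnion₂]
    refine ⟨m.minFac, ?_, ?_⟩
    · rw [Finset.mem_coe, hP, Finset.mem_filter, Finset.mem_range]
      exact ⟨by omega, Nat.minFac_prime (by omega)⟩
    · rw [Finset.mem_coe, Finset.mem_filter, Finset.mem_range]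
      exact ⟨hk, n, hn, hn2, m, hm, hm3, m.minFac_dvd, hD⟩
  refine (Set.ncard_le_ncard h2 (Finset.finite_toSet _)).trans ?_
  rw [Set.ncard_coe_finset]
  refine Finset.card_biUnion_le.trans (Finset.sum_le_sum fun l _ => le_of_eq ?_)
  unfold Pool.Agent.H771R2.Dens.cnt
  congr

end Pool.Agent.Results.MP_79499b_co.PolynomialOrders
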