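import Mathlib
import Pool.Agent.TH66.SG.Odd
import Pool.Agent.TH66.SG.Fin2

set_option autoImplicit false

namespace Pool.Agent.Results.MP_79499b_co.PrimeFamilies

open Filter Topology

/-- Some finite group `G` of order `(n ^ m - 1) / (n - 1)`, which is nilpotent (for instance
abelian) if the condition `nil` holds, contains a difference set `D` with the Singer parameters
`k = (n ^ (m - 1) - 1) / (n - 1)` and `lambda = (n ^ (m - 2) - 1) / (n - 1)`. (If `nil` is false, `G`
is an arbitrary finite group.) -/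
def HasSingerDifferenceSet (nil : Prop) (n m : ℕ) : Prop :=
  ∃ (G : Type) (_ : Group G) (_ : Fintype G) (_ : DecidableEq G) (D : Finset G),
    (nil → Group.IsNilpotent G) ∧
    Fintype.card G * (n - 1) = n ^ m - 1 ∧ D.card * (n - 1) = n ^ (m - 1) - 1 ∧
    ∀ g : G, g ≠ 1 →
      ((D ×ˢ D).filter (fun p : G × G => p.1 * p.2⁻¹ = g)).card * (n - 1) = n ^ (m - 2) - 1

/-- Let `m ≥ 3`, `A ≥ 2` and `F ≥ 1`. For almost all primes `q` (all but `o(π(N))` of the primes
`q ≤ N`) no finite nilpotent group contains a difference set with the Singer parameters of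
`(A * q ^ F, m)`; and if `m` is odd and `A` is not a square or `F` is odd (so that `A * q ^ F` is not a
square for the primes `q` not dividing `A`), then no finite group at all does. -/
theorem result (m A F : ℕ) (hm : 3 ≤ m) (hA : 2 ≤ A) (hF : 1 ≤ F) :
    Tendsto (fun N : ℕ =>
      ({q : ℕ | q ≤ N ∧ q.Prime ∧
          HasSingerDifferenceSet (Even m ∨ (IsSquare A ∧ Even F)) (A * q ^ F) m}.ncard : ℝ) /
        (Nat.primeCounting N : ℝ)) atTop (𝓝 0) := by
  by_cases h : Even m ∨ (IsSquare A ∧ Even F)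
  · have key : ∀ n : ℕ, HasSingerDifferenceSet (Even m ∨ (IsSquare A ∧ Even F)) n m ↔
        Pool.Agent.TH66.SG.NilSinger n m := by
      intro n
      constructor
      · rintro ⟨G, i1, i2, i3, D, h1, h2, h3, h4⟩
        exact ⟨G, i1, i2, i3, D, h1 h, h2, h3, h4⟩
      · rintro ⟨G, i1, i2, i3, D, h1, h2, h3, h4⟩
        exact ⟨G, i1, i2, i3, D, fun _ => h1, h2, h3, h4⟩
    simp only [key]
    rcases h with h | ⟨⟨a, rfl⟩, f, rfl⟩
    · have h1 := Pool.Agent.TH66.SG.main2 (m := m) (e := 1) (a := A) (f := F) hm le_rfl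
        (by rwa [one_mul]) hA hF
      simp only [pow_one] at h1
      exact h1
    · have ha : 2 ≤ a := by nlinarith
      have h1 := Pool.Agent.TH66.SG.main2 (m := m) (e := 2) (a := a) (f := f) hm (by norm_num)
        (even_two_mul m) ha (by omega)
      have h2 : ∀ q : ℕ, (a * q ^ f) ^ 2 = a * a * q ^ (f + f) := by
        intro q
        ring
      simp only [h2] at h1
      exact h1
  · have key : ∀ n : ℕ, HasSingerDifferenceSet (Even m ∨ (IsSquare A ∧ Even F)) n m ↔
        Pool.Agent.H771R2.SingerDS.HasSinger n m := by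
      intro n
      constructor
      · rintro ⟨G, i1, i2, i3, D, h1, h2, h3, h4⟩
        exact ⟨G, i1, i2, i3, D, h2, h3, h4⟩
      · rintro ⟨G, i1, i2, i3, D, h2, h3, h4⟩
        exact ⟨G, i1, i2, i3, D, fun h0 => absurd h0 h, h2, h3, h4⟩
    simp only [key]
    refine Pool.Agent.TH66.SG.odd_main (Nat.not_even_iff_odd.1 fun h0 => h (Or.inl h0)) hm hA hF ?_
    by_cases h0 : Even F
    · exact Or.inr fun h1 => h (Or.inr ⟨h1, h0⟩)
    · exact Or.inl (Nat.not_even_iff_odd.1 h0)

end Pool.Agent.Results.MP_79499b_co.PrimeFamilies
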